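import Pool.Agent.H961.T4.Stm2

/-!
# Project PN, job LLG (helper134): logarithmic law of the microscopic cycles in the plane
-/

set_option autoImplicit false
set_option linter.unusedSectionVars false
set_option linter.unusedVariables false

namespace Pool.Agent.H134.PN

open Finset Equiv Matrix Q292.LC Pool.Agent.H961.T2 Pool.Agent.H961.T3 Pool.Agent.H961.T4
open Pool.Agent.Y998.ST (stirExp nnRate cycleLen stirLaw nn_nonneg exp_mono exp_const law_nonneg)
open Pool.Agent.Q297.LC (card_cyc)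

section gen

variable {V : Type} [Fintype V] [DecidableEq V]

theorem e_add (J : V → V → ℝ) (t : ℝ) (F G : Perm V → ℝ) :
    stirExp J t (fun g => F g + G g) = stirExp J t F + stirExp J t G := by
  unfold stirExp
  rw [← Finset.sum_add_distrib]
  exact Finset.sum_congr rfl fun g _ => by rw [mul_add]

theorem e_smul (J : V → V → ℝ) (t c : ℝ) (F : Perm V → ℝ) :
    stirExp J t (fun g => c * F g) = c * stirExp J t F := by
  unfold stirExp
  rw [Finset.mul_sum]
  exact Finset.sum_congr rfl fun g _ => by ring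

/-- `L¹` bound from the `L²` bound -/
theorem e_abs {J : V → V → ℝ} (hJ : ∀ x y, 0 ≤ J x y) {t : ℝ} (ht : 0 ≤ t) (F : Perm V → ℝ)
    (c : ℝ) (hc : 0 < c) (h : stirExp J t (fun g => F g ^ 2) ≤ c ^ 2) :
    stirExp J t (fun g => |F g|) ≤ c := by
  have h1 : stirExp J t (fun g => |F g|) ≤
      stirExp J t (fun g => (1 / (2 * c)) * (F g ^ 2) + c / 2) := by
    refine exp_mono hJ ht fun g => ?_
    have h2 : |F g| * (2 * c) ≤ F g ^ 2 + c ^ 2 := by
      have h3 := sq_nonneg (|F g| - c)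
      have h4 : |F g| ^ 2 = F g ^ 2 := sq_abs _
      nlinarith
    have h5 : (1 / (2 * c)) * (F g ^ 2) + c / 2 = (F g ^ 2 + c ^ 2) / (2 * c) := by
      field_simp
    rw [h5, le_div_iff₀ (by positivity)]
    exact h2
  have h2 : stirExp J t (fun g => (1 / (2 * c)) * (F g ^ 2) + c / 2) =
      (1 / (2 * c)) * stirExp J t (fun g => F g ^ 2) + c / 2 := by
    rw [e_add, e_smul, exp_const]
  rw [h2] at h1
  have h3 : (1 / (2 * c)) * stirExp J t (fun g => F g ^ 2) ≤ (1 / (2 * c)) * c ^ 2 :=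
    mul_le_mul_of_nonneg_left h (by positivity)
  have h4 : (1 / (2 * c)) * c ^ 2 = c / 2 := by field_simp
  linarith

theorem sm_eq (w : ℝ) (g : Perm V) : sm w g = ∑ x, w ^ cycleLen g x := by
  unfold sm
  exact Finset.sum_congr rfl fun x _ => by rw [card_cyc]

theorem sm_nonneg {w : ℝ} (hw : 0 ≤ w) (g : Perm V) : 0 ≤ sm w g := by
  unfold sm
  exact Finset.sum_nonneg fun x _ => pow_nonneg hw _

theorem card_sum (g : Perm V) (n : ℕ) :
    ((univ.filter fun x => cycleLen g x ≤ n).card : ℝ) =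
      ∑ x, (if cycleLen g x ≤ n then (1 : ℝ) else 0) := by
  rw [Finset.sum_boole]

/-- upper bound -/
theorem up_bd (g : Perm V) (n : ℕ) (hn : 0 < n) (η : ℝ) (h0 : 0 < η) (h1 : η ≤ 1 / 2) :
    (1 - η) * ((univ.filter fun x => cycleLen g x ≤ n).card : ℝ) ≤ sm (1 - η / n) g := by
  rw [card_sum, sm_eq, Finset.mul_sum]
  have hn' : (0 : ℝ) < n := by exact_mod_cast hn
  have hn1 : (1 : ℝ) ≤ n := by exact_mod_cast hn
  have hle : η / n ≤ 1 / 2 := le_trans (div_le_self h0.le hn1) h1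
  have hw : 0 ≤ 1 - η / n := by linarith
  refine Finset.sum_le_sum fun x _ => ?_
  split_ifs with h
  · have hb := one_add_mul_le_pow (a := -(η / n)) (by linarith) (cycleLen g x)
    have h2 : (cycleLen g x : ℝ) ≤ n := by exact_mod_cast h
    have h3 : (cycleLen g x : ℝ) * (η / n) ≤ n * (η / n) :=
      mul_le_mul_of_nonneg_right h2 (by positivity)
    have h4 : (n : ℝ) * (η / n) = η := by field_simp
    have h5 : 1 + -(η / n) = 1 - η / n := by ring
    rw [h5] at hb
    have h6 : 1 + (cycleLen g x : ℝ) * -(η / n) = 1 - (cycleLen g x : ℝ) * (η / n) := by ring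
    rw [h6] at hb
    linarith
  · rw [mul_zero]; exact pow_nonneg hw _

/-- lower bound -/
theorem lo_bd (g : Perm V) (n : ℕ) (hn : 0 < n) (η : ℝ) (h0 : 0 < η) (h1 : 1 ≤ η * n) :
    sm (1 - 1 / (η * n)) g ≤ ((univ.filter fun x => cycleLen g x ≤ n).card : ℝ) +
      Real.exp (-(1 / (2 * η))) * sm (1 - 1 / (2 * η * n)) g := by
  rw [card_sum, sm_eq, sm_eq, Finset.mul_sum, ← Finset.sum_add_distrib]
  have hn' : (0 : ℝ) < n := by exact_mod_cast hn
  have hηn : 0 < η * n := by positivity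
  have i1 : 1 / (η * n) ≤ 1 := by rw [div_le_one hηn]; exact h1
  have i2 : 1 / (2 * η * n) = 1 / (η * n) / 2 := by field_simp
  have i0 : 0 < 1 / (η * n) := by positivity
  have hw : 0 ≤ 1 - 1 / (η * n) := by linarith
  have hw1 : 1 - 1 / (η * n) ≤ 1 := by linarith
  have hw' : 0 ≤ 1 - 1 / (2 * η * n) := by rw [i2]; linarith
  refine Finset.sum_le_sum fun x _ => ?_
  split_ifs with h
  · have h2 : (1 - 1 / (η * n)) ^ cycleLen g x ≤ 1 := pow_le_one₀ hw hw1
    have h3 : 0 ≤ Real.exp (-(1 / (2 * η))) * (1 - 1 / (2 * η * n)) ^ cycleLen g x :=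
      mul_nonneg (Real.exp_pos _).le (pow_nonneg hw' _)
    linarith
  · rw [zero_add]
    have hln : n ≤ cycleLen g x := by omega
    have h2 : 1 - 1 / (η * n) ≤ (1 - 1 / (2 * η * n)) ^ 2 := by
      rw [i2]; nlinarith [sq_nonneg (1 / (η * n) / 2)]
    have h3 : (1 - 1 / (η * n)) ^ cycleLen g x ≤
        ((1 - 1 / (2 * η * n)) ^ 2) ^ cycleLen g x := pow_le_pow_left₀ hw h2 _
    have h4 : ((1 - 1 / (2 * η * n)) ^ 2) ^ cycleLen g x =
        (1 - 1 / (2 * η * n)) ^ cycleLen g x * (1 - 1 / (2 * η * n)) ^ cycleLen g x := by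
      rw [← pow_mul, ← pow_add]; congr 1; ring
    have hw'1 : 1 - 1 / (2 * η * n) ≤ 1 := by rw [i2]; linarith
    have h5 : (1 - 1 / (2 * η * n)) ^ cycleLen g x ≤ (1 - 1 / (2 * η * n)) ^ n :=
      pow_le_pow_of_le_one hw' hw'1 hln
    have h6 : (1 - 1 / (2 * η * n)) ^ n ≤ Real.exp (-(1 / (2 * η))) := by
      have h7 : 1 - 1 / (2 * η * n) ≤ Real.exp (-(1 / (2 * η * n))) := by
        have := Real.add_one_le_exp (-(1 / (2 * η * n))); linarith
      have h8 := pow_le_pow_left₀ hw' h7 n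
      refine le_trans h8 (le_of_eq ?_)
      rw [← Real.exp_nat_mul]
      congr 1
      field_simp
    rw [h4] at h3
    refine le_trans h3 ?_
    exact mul_le_mul_of_nonneg_right (h5.trans h6) (pow_nonneg hw' _)

end gen

/-- the pointwise estimate, pure algebra -/
theorem alg (M s1 s2 s3 a η θ ln lη l1 l2 l3 : ℝ) (ha : 0 ≤ a) (h0 : 0 < η) (h1 : η ≤ 1 / 2)
    (hM : 0 ≤ M)
    (hθ0 : 0 ≤ θ) (hθ : θ ≤ 2 * η) (hln : 0 ≤ ln) (hlη : 0 ≤ lη)
    (hu : (1 - η) * M ≤ s1) (hl : s2 ≤ M + θ * s3) (hl1 : l1 = ln + lη) (hl2 : l2 = ln - lη)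
    (hl3 : l3 ≤ ln) :
    |a * M - ln| ≤ 2 * |a * s1 - l1| + |a * s2 - l2| + |a * s3 - l3| + 2 * lη + 4 * η * ln := by
  have e1 := le_abs_self (a * s1 - l1)
  have e2 := neg_abs_le (a * s2 - l2)
  have e3 := le_abs_self (a * s3 - l3)
  have n1 := abs_nonneg (a * s1 - l1)
  have n2 := abs_nonneg (a * s2 - l2)
  have n3 := abs_nonneg (a * s3 - l3)
  have hu' : (1 - η) * (a * M) ≤ a * s1 := by
    have := mul_le_mul_of_nonneg_left hu ha
    calc (1 - η) * (a * M) = a * ((1 - η) * M) := by ring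
      _ ≤ a * s1 := this
  have hl' : a * s2 ≤ a * M + θ * (a * s3) := by
    have := mul_le_mul_of_nonneg_left hl ha
    calc a * s2 ≤ a * (M + θ * s3) := this
      _ = a * M + θ * (a * s3) := by ring
  rw [abs_le]
  constructor
  · -- ln - aM ≤ ...
    have h2 : θ * (a * s3) ≤ θ * (|a * s3 - l3| + ln) :=
      mul_le_mul_of_nonneg_left (by linarith) hθ0
    have h3 : θ * |a * s3 - l3| ≤ 1 * |a * s3 - l3| :=
      mul_le_mul_of_nonneg_right (by linarith) n3
    have h4 : θ * ln ≤ 2 * η * ln := mul_le_mul_of_nonneg_right hθ hln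
    have h5 : 0 ≤ η * ln := mul_nonneg h0.le hln
    have h6 : θ * (|a * s3 - l3| + ln) = θ * |a * s3 - l3| + θ * ln := by ring
    nlinarith
  · -- aM - ln ≤ ...
    have h2 : (1 - η) * (a * M - ln) ≤ |a * s1 - l1| + lη + η * ln := by
      have : (1 - η) * (a * M - ln) = (1 - η) * (a * M) - ln + η * ln := by ring
      rw [this]; linarith
    have h5 : 0 ≤ η * ln := mul_nonneg h0.le hln
    by_cases hneg : a * M - ln ≤ 0
    · nlinarith
    · push Not at hneg
      have h3 : (1 / 2) * (a * M - ln) ≤ (1 - η) * (a * M - ln) :=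
        mul_le_mul_of_nonneg_right (by linarith) hneg.le
      nlinarith

theorem llg (hMO2 : S_MO2) : S_LLG := by
  obtain ⟨m, hm⟩ := hMO2
  refine ⟨m, fun ε hε => ?_⟩
  obtain ⟨δ, hδ⟩ : ∃ δ : ℝ, δ = min 1 (ε / 32) := ⟨_, rfl⟩
  have hδ0 : 0 < δ := by rw [hδ]; exact lt_min one_pos (by positivity)
  have hδ1 : δ ≤ 1 := by rw [hδ]; exact min_le_left _ _
  have hδε : δ ≤ ε / 32 := by rw [hδ]; exact min_le_right _ _
  obtain ⟨η, hη⟩ : ∃ η : ℝ, η = min (1 / 2) (ε / 16) := ⟨_, rfl⟩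
  have hη0 : 0 < η := by rw [hη]; exact lt_min (by norm_num) (by positivity)
  have hη1 : η ≤ 1 / 2 := by rw [hη]; exact min_le_left _ _
  have hηε : η ≤ ε / 16 := by rw [hη]; exact min_le_right _ _
  obtain ⟨T₁, hT₁, hmo⟩ := hm (δ ^ 2) (by positivity)
  obtain ⟨lη, hlη⟩ : ∃ lη : ℝ, lη = Real.log (1 / η) := ⟨_, rfl⟩
  have hiη : 1 ≤ 1 / η := by rw [le_div_iff₀ hη0]; linarith
  have hlη0 : 0 ≤ lη := by rw [hlη]; exact Real.log_nonneg hiη
  obtain ⟨T, hT⟩ : ∃ T : ℝ, T = 3 + T₁ + 1 / η + Real.exp (8 * lη / ε) +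
    (1 / η) ^ (320 / 3 : ℝ) := ⟨_, rfl⟩
  have p1 : 0 < 1 / η := by positivity
  have p2 : 0 < Real.exp (8 * lη / ε) := Real.exp_pos _
  have p3 : 0 < (1 / η) ^ (320 / 3 : ℝ) := Real.rpow_pos_of_pos p1 _
  refine ⟨T, by rw [hT]; linarith, ?_⟩
  intro L _ t n htT htL hlog hnT hnt
  have ht3 : 3 ≤ t := by linarith
  have ht0 : 0 < t := by linarith
  have ht1 : 1 ≤ t := by linarith
  have hn3 : (3 : ℝ) ≤ n := by linarith
  have hn0 : (0 : ℝ) < n := by linarith
  have hn0' : 0 < n := by exact_mod_cast hn0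
  have hL9 : (9 : ℝ) ≤ L := by nlinarith
  have hL3 : 3 ≤ L := by
    have : (3 : ℝ) ≤ L := by linarith
    exact_mod_cast this
  have hT₁t : T₁ ≤ t := by linarith
  have hT₁L : T₁ * t ≤ L := le_trans (mul_le_mul_of_nonneg_right (by linarith) ht0.le) htL
  -- logarithm
  have hln1 : 1 ≤ Real.log n := by
    rw [Real.le_log_iff_exp_le hn0]
    have := Real.exp_one_lt_d9
    linarith
  have hln8 : 8 * lη / ε ≤ Real.log n := by
    rw [Real.le_log_iff_exp_le hn0]; linarith
  have hηn : 1 ≤ η * n := by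
    have : 1 / η ≤ n := by linarith
    rw [div_le_iff₀ hη0] at this; linarith
  have hηn0 : 0 < η * n := by linarith
  -- size condition
  have hsize : n / η ≤ t ^ (1 / 40 : ℝ) := by
    have h1 : (1 / η) ≤ t ^ (3 / 320 : ℝ) := by
      have h2 : ((1 / η) ^ (320 / 3 : ℝ)) ^ (3 / 320 : ℝ) ≤ t ^ (3 / 320 : ℝ) :=
        Real.rpow_le_rpow p3.le (by linarith) (by norm_num)
      rw [← Real.rpow_mul p1.le] at h2
      have h3 : (320 / 3 : ℝ) * (3 / 320) = 1 := by norm_num
      rwa [h3, Real.rpow_one] at h2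
    have h4 : t ^ (1 / 40 : ℝ) = t ^ (1 / 64 : ℝ) * t ^ (3 / 320 : ℝ) := by
      rw [← Real.rpow_add ht0]; norm_num
    rw [h4, div_eq_mul_one_div]
    exact mul_le_mul hnt h1 p1.le (Real.rpow_nonneg ht0.le _)
  have hsub : ∀ w : ℝ, 0 ≤ w → w < 1 → 1 / (1 - w) ≤ n / η →
      stirExp (nnRate 2 L) t (fun g => |4 * Real.pi * t / (L : ℝ) ^ 2 * sm w g -
        Real.log (1 / (1 - w))|) ≤ δ * (1 + Real.log (1 / (1 - w))) := by
    intro w hw0 hw1 hw
    have hlw : 0 ≤ Real.log (1 / (1 - w)) := by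
      apply Real.log_nonneg
      rw [le_div_iff₀ (by linarith)]; linarith
    have h := hmo L t w hL3 hT₁t hT₁L hlog hw0 hw1 (hw.trans hsize)
    refine e_abs (fun x y => nn_nonneg x y) ht0.le _ _ (by positivity) ?_
    rw [mul_pow]
    exact h
  -- the four values of w
  have q1 : 0 < η / n := by positivity
  have q1' : η / n ≤ 1 / 2 := le_trans (div_le_self hη0.le (by linarith)) hη1
  have q2 : 0 < 1 / (η * n) := by positivity
  have q2' : 1 / (η * n) ≤ 1 := by rw [div_le_one hηn0]; exact hηn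
  have q3 : 1 / (2 * η * n) = 1 / (η * n) / 2 := by field_simp
  have w1 := hsub (1 - η / n) (by linarith) (by linarith) (by
    rw [sub_sub_cancel, one_div_div])
  have w2 := hsub (1 - 1 / (η * n)) (by linarith) (by linarith) (by
    rw [sub_sub_cancel, one_div_one_div, le_div_iff₀ hη0]
    nlinarith)
  have w3 := hsub (1 - 1 / (2 * η * n)) (by rw [q3]; linarith) (by rw [q3]; linarith) (by
    rw [sub_sub_cancel, one_div_one_div, le_div_iff₀ hη0]
    have : η * η ≤ 1 / 4 := by nlinarith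
    nlinarith)
  rw [sub_sub_cancel, one_div_div] at w1
  rw [sub_sub_cancel, one_div_one_div] at w2 w3
  have l1 : Real.log (n / η) = Real.log n + lη := by
    rw [hlη, Real.log_div hn0.ne' hη0.ne', one_div, Real.log_inv]; ring
  have l2 : Real.log (η * n) = Real.log n - lη := by
    rw [hlη, Real.log_mul hη0.ne' hn0.ne', one_div, Real.log_inv]; ring
  have l3 : Real.log (2 * η * n) ≤ Real.log n := by
    apply Real.log_le_log (by positivity)
    nlinarith
  have hθ : Real.exp (-(1 / (2 * η))) ≤ 2 * η := by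
    have h1 := Real.add_one_le_exp (1 / (2 * η))
    have h2 : 0 < 1 / (2 * η) := by positivity
    rw [Real.exp_neg, inv_le_comm₀ (Real.exp_pos _) (by positivity)]
    rw [one_div] at h1 ⊢
    rw [one_div] at h2
    linarith
  -- pointwise bound
  have hpt : ∀ g : Perm (Fin 2 → ZMod L), |4 * Real.pi * t *
      (((univ.filter fun x => cycleLen g x ≤ n).card : ℝ) / (L : ℝ) ^ 2) - Real.log n| ≤
      2 * |4 * Real.pi * t / (L : ℝ) ^ 2 * sm (1 - η / n) g - Real.log (n / η)| +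
      |4 * Real.pi * t / (L : ℝ) ^ 2 * sm (1 - 1 / (η * n)) g - Real.log (η * n)| +
      |4 * Real.pi * t / (L : ℝ) ^ 2 * sm (1 - 1 / (2 * η * n)) g - Real.log (2 * η * n)| +
      (2 * lη + 4 * η * Real.log n) := by
    intro g
    have h := alg ((univ.filter fun x => cycleLen g x ≤ n).card : ℝ) (sm (1 - η / n) g)
      (sm (1 - 1 / (η * n)) g) (sm (1 - 1 / (2 * η * n)) g) (4 * Real.pi * t / (L : ℝ) ^ 2)
      η (Real.exp (-(1 / (2 * η)))) (Real.log n) lη (Real.log (n / η)) (Real.log (η * n))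
      (Real.log (2 * η * n)) (by positivity) hη0 hη1 (by positivity) (Real.exp_pos _).le hθ
      (by linarith) hlη0 (up_bd g n hn0' η hη0 hη1) (lo_bd g n hn0' η hη0 hηn) l1 l2 l3
    have e : 4 * Real.pi * t * (((univ.filter fun x => cycleLen g x ≤ n).card : ℝ) / (L : ℝ) ^ 2) =
        4 * Real.pi * t / (L : ℝ) ^ 2 * ((univ.filter fun x => cycleLen g x ≤ n).card : ℝ) := by
      ring
    rw [e]
    linarith
  have hE := exp_mono (J := nnRate 2 L) (fun x y => nn_nonneg x y) (t := t) ht0.le hpt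
  refine le_trans hE ?_
  rw [e_add, e_add, e_add, e_smul, exp_const]
  rw [l1] at w1
  rw [l2] at w2
  have g1 : δ * (1 + (Real.log n + lη)) = δ * (1 + Real.log n) + δ * lη := by ring
  have g2 : δ * (1 + (Real.log n - lη)) ≤ δ * (1 + Real.log n) :=
    mul_le_mul_of_nonneg_left (by linarith) hδ0.le
  have g3 : δ * (1 + Real.log (2 * η * n)) ≤ δ * (1 + Real.log n) :=
    mul_le_mul_of_nonneg_left (by linarith) hδ0.le
  have g4 : δ * lη ≤ 1 * lη := mul_le_mul_of_nonneg_right hδ1 hlη0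
  have g5 : δ * (1 + Real.log n) ≤ ε / 32 * (2 * Real.log n) :=
    mul_le_mul hδε (by linarith) (by linarith) (by positivity)
  have g6 : 4 * η * Real.log n ≤ 4 * (ε / 16) * Real.log n :=
    mul_le_mul_of_nonneg_right (by linarith) (by linarith)
  have g7 : 8 * lη ≤ ε * Real.log n := by
    rw [div_le_iff₀ hε] at hln8; linarith
  rw [← l1] at w1
  rw [← l2] at w2
  rw [l1] at w1 ⊢
  rw [l2] at w2 ⊢
  have hsum : 2 * (δ * (1 + Real.log n) + δ * lη) + δ * (1 + Real.log n) +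
      δ * (1 + Real.log n) + (2 * lη + 4 * η * Real.log n) ≤ ε * Real.log n := by
    nlinarith
  linarith

end Pool.Agent.H134.PN
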